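import Pool.Agent.W674.LVF.Stm

set_option autoImplicit false

open MeasureTheory Set Filter Topology Asymptotics
open scoped ENNReal NNReal ContDiff
open Pool.Agent.W674.LVR Pool.Agent.W674.LVF

namespace Pool.Agent.W505.LVF

theorem image_null {k : ℕ} {f : Rn k → Rn k} {s : Set (Rn k)} {K : ℝ≥0}
    (hf : LipschitzOnWith K f s) (hs : volume s = 0) : volume (f '' s) = 0 := by
  have h1 : (volume : Measure (Rn k)) = Measure.hausdorffMeasure (k : ℝ) := by
    rw [← hausdorffMeasure_pi_real, Fintype.card_fin]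
  rw [h1] at hs ⊢
  have h2 := hf.hausdorffMeasure_image_le (d := (k : ℝ)) (by positivity)
  rw [hs, mul_zero] at h2
  exact nonpos_iff_eq_zero.mp h2

namespace Area

theorem main : S_area := by
  intro k τ s g ⟨C, hC⟩ hs hinj hg
  refine ⟨hs.image_of_continuousOn_injOn hC.continuous.continuousOn hinj, ?_⟩
  set s1 : Set (Rn k) := s ∩ {x | DifferentiableAt ℝ τ x} with hs1
  have hs1m : MeasurableSet s1 := hs.inter (measurableSet_of_differentiableAt ℝ τ)
  have hs2 : volume (s \ s1) = 0 := by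
    have h := hC.ae_differentiableAt (μ := (volume : Measure (Rn k)))
    rw [ae_iff] at h
    refine measure_mono_null ?_ h
    rintro x ⟨h1, h2⟩ h3
    exact h2 ⟨h1, h3⟩
  have him : volume (τ '' (s \ s1)) = 0 := image_null hC.lipschitzOnWith hs2
  have hsub : s1 ⊆ s := inter_subset_left
  have e1 : (τ '' s : Set (Rn k)) =ᵐ[volume] (τ '' s1 : Set (Rn k)) := by
    have hd : τ '' s \ τ '' s1 ⊆ τ '' (s \ s1) := by
      rintro _ ⟨⟨x, hx, rfl⟩, h2⟩
      exact ⟨x, ⟨hx, fun h => h2 ⟨x, h, rfl⟩⟩, rfl⟩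
    have h0 : volume (τ '' s \ τ '' s1) = 0 := measure_mono_null hd him
    exact (ae_le_set.mpr h0).antisymm (Eventually.of_forall (image_mono hsub))
  have e2 : (s : Set (Rn k)) =ᵐ[volume] s1 :=
    (ae_le_set.mpr hs2).antisymm (Eventually.of_forall hsub)
  rw [setLIntegral_congr e1, setLIntegral_congr e2]
  exact lintegral_image_eq_lintegral_abs_det_fderiv_mul volume hs1m
    (fun x hx => hx.2.hasFDerivAt.hasFDerivWithinAt) (hinj.mono hsub) g

end Area

end Pool.Agent.W505.LVF
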