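import Pool.Agent.W674.LVF.Stm

set_option autoImplicit false

open MeasureTheory Set Filter Topology Asymptotics Metric
open scoped ENNReal NNReal ContDiff Pointwise
open Pool.Agent.W674.LVR Pool.Agent.W674.LVF

namespace Pool.Agent.W505.LVF.Dens

theorem main : S_dens := by
  intro k s hs
  filter_upwards [Besicovitch.ae_tendsto_measure_inter_div (volume : Measure (Rn k)) s]
  intro u hu a ha hhom hlim w
  by_contra hpos
  push Not at hpos
  -- continuity
  obtain ⟨ρ, hρ, hρ'⟩ : ∃ ρ > 0, ∀ b ∈ closedBall w ρ, a w / 2 < a b := by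
    have h1 : ∀ᶠ b in 𝓝 w, a w / 2 < a b :=
      ha.continuousAt.eventually (lt_mem_nhds (by linarith))
    obtain ⟨ρ, hρ, h⟩ := Metric.eventually_nhds_iff_ball.mp h1
    refine ⟨ρ / 2, by positivity, fun b hb => h b ?_⟩
    exact closedBall_subset_ball (by linarith) hb
  have hD : 0 < ‖w‖ + ρ := by positivity
  set ε := a w / (4 * (‖w‖ + ρ)) with hε
  have hε0 : 0 < ε := by positivity
  have h2 := hlim ε hε0
  rw [eventually_nhdsWithin_iff, Metric.eventually_nhds_iff_ball] at h2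
  obtain ⟨δ, hδ, h2⟩ := h2
  have B₁ : ∀ᶠ r in 𝓝[>] (0 : ℝ), (s ∩ ({u} + r • closedBall w ρ)).Nonempty :=
    Measure.eventually_nonempty_inter_smul_of_density_one volume s u hu _ measurableSet_closedBall
      (measure_closedBall_pos volume w hρ).ne'
  have B₂ : ∀ᶠ r in 𝓝[>] (0 : ℝ), r * (‖w‖ + ρ) < δ := by
    have : Tendsto (fun r : ℝ => r * (‖w‖ + ρ)) (𝓝[>] 0) (𝓝 (0 * (‖w‖ + ρ))) :=
      ((continuous_id.mul continuous_const).tendsto 0).mono_left nhdsWithin_le_nhds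
    rw [zero_mul] at this
    exact this.eventually (gt_mem_nhds hδ)
  obtain ⟨r, ⟨⟨y, hys, hy⟩, hr2⟩, hr0⟩ := ((B₁.and B₂).and self_mem_nhdsWithin).exists
  have hr0 : 0 < r := hr0
  rw [singleton_add, mem_image] at hy
  obtain ⟨v, hv, rfl⟩ := hy
  obtain ⟨b, hb, rfl⟩ := hv
  have hbn : ‖b‖ ≤ ‖w‖ + ρ := by
    have := mem_closedBall.mp hb
    rw [dist_eq_norm] at this
    calc ‖b‖ = ‖w + (b - w)‖ := by congr 1; abel
      _ ≤ ‖w‖ + ‖b - w‖ := norm_add_le _ _
      _ ≤ ‖w‖ + ρ := by linarith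
  have h3 := h2 (u + r • b) (by
    rw [mem_ball, dist_eq_norm, add_sub_cancel_left, norm_smul, Real.norm_eq_abs, abs_of_pos hr0]
    exact lt_of_le_of_lt (mul_le_mul_of_nonneg_left hbn hr0.le) hr2) hys
  rw [add_sub_cancel_left, hhom r b hr0, norm_smul, Real.norm_eq_abs, abs_of_pos hr0] at h3
  have h4 := hρ' b hb
  have h5 : a b ≤ ε * ‖b‖ := by
    have : r * a b ≤ r * (ε * ‖b‖) := by linarith
    exact le_of_mul_le_mul_left this hr0
  have h6 : ε * ‖b‖ ≤ ε * (‖w‖ + ρ) := mul_le_mul_of_nonneg_left hbn hε0.le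
  have h7 : ε * (‖w‖ + ρ) = a w / 4 := by
    rw [hε]
    field_simp
  linarith

end Pool.Agent.W505.LVF.Dens
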