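import Pool.Agent.W505.LVF.LVFarea

set_option autoImplicit false

open MeasureTheory Set Filter Topology Asymptotics
open scoped ENNReal NNReal ContDiff
open Pool.Agent.W674.LVR Pool.Agent.W674.LVF

namespace Pool.Agent.W505.LVF.Null

theorem main : S_null := by
  intro k G G' s Z hs hZ hG
  classical
  set s' : Set (Rn k) := {u | u ∈ s ∧ G u ∈ Z ∧ (G' u).det ≠ 0} with hs'
  suffices h : volume s' = 0 by
    rw [ae_restrict_iff' hs, ae_iff]
    refine measure_mono_null ?_ h
    intro u hu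
    have hu' : ¬ (u ∈ s → G u ∈ Z → (G' u).det = 0) := hu
    push Not at hu'
    exact ⟨hu'.1, hu'.2.1, hu'.2.2⟩
  -- the radius
  have hr : ∀ A : Rn k →L[ℝ] Rn k, ∃ c : ℝ≥0, c ≠ 0 ∧ ∀ h : A.det ≠ 0, Subsingleton (Rn k) ∨
      c < ‖((A.toContinuousLinearEquivOfDetNeZero h).symm : Rn k →L[ℝ] Rn k)‖₊⁻¹ := by
    intro A
    by_cases h : A.det ≠ 0
    · rcases (A.toContinuousLinearEquivOfDetNeZero h).subsingleton_or_nnnorm_symm_pos with h1 | h1
      · exact ⟨1, one_ne_zero, fun _ => Or.inl h1⟩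
      · have h2 : 0 < ‖((A.toContinuousLinearEquivOfDetNeZero h).symm : Rn k →L[ℝ] Rn k)‖₊⁻¹ :=
          inv_pos.mpr h1
        exact ⟨_, (half_pos h2).ne', fun _ => Or.inr (NNReal.half_lt_self h2.ne')⟩
    · exact ⟨1, one_ne_zero, fun h' => absurd h' h⟩
  choose r hr0 hr1 using hr
  have hG' : ∀ x ∈ s', HasFDerivWithinAt G (G' x) s' x := fun x hx =>
    (hG x hx.1).mono fun y hy => hy.1
  obtain ⟨t, A, -, -, hcov, happ, hA⟩ :=
    exists_partition_approximatesLinearOn_of_hasFDerivWithinAt G s' G' hG' r hr0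
  rcases s'.eq_empty_or_nonempty with hemp | hne
  · rw [hemp, measure_empty]
  have hpiece : ∀ n, volume (s' ∩ t n) = 0 := by
    intro n
    obtain ⟨y, hy, hyA⟩ := hA hne n
    have hdet : (A n).det ≠ 0 := by rw [hyA]; exact hy.2.2
    have h1 : ApproximatesLinearOn G
        ((A n).toContinuousLinearEquivOfDetNeZero hdet : Rn k →L[ℝ] Rn k) (s' ∩ t n) (r (A n)) := by
      have := happ n
      simpa using this
    have h2 := h1.antilipschitz (hr1 (A n) hdet)
    have h3 := h1.injOn (hr1 (A n) hdet)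
    set g := Function.invFunOn G (s' ∩ t n) with hg
    have hgl : ∀ x ∈ s' ∩ t n, g (G x) = x := fun x hx => h3.leftInvOn_invFunOn hx
    have hlip : LipschitzOnWith
        (‖(((A n).toContinuousLinearEquivOfDetNeZero hdet).symm : Rn k →L[ℝ] Rn k)‖₊⁻¹ -
          r (A n))⁻¹ g (G '' (s' ∩ t n)) := by
      rw [lipschitzOnWith_iff_dist_le_mul]
      rintro _ ⟨x, hx, rfl⟩ _ ⟨x', hx', rfl⟩
      rw [hgl x hx, hgl x' hx']
      exact h2.le_mul_dist ⟨x, hx⟩ ⟨x', hx'⟩
    have h4 : g '' (G '' (s' ∩ t n)) = s' ∩ t n := by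
      rw [image_image]
      ext x
      constructor
      · rintro ⟨x', hx', rfl⟩
        change g (G x') ∈ _
        rw [hgl x' hx']
        exact hx'
      · intro hx
        exact ⟨x, hx, hgl x hx⟩
    rw [← h4]
    apply image_null hlip
    refine measure_mono_null ?_ hZ
    rintro _ ⟨x, hx, rfl⟩
    exact hx.1.2.1
  have : s' ⊆ ⋃ n, s' ∩ t n := by
    intro x hx
    obtain ⟨n, hn⟩ := mem_iUnion.mp (hcov hx)
    exact mem_iUnion.mpr ⟨n, hx, hn⟩
  exact measure_mono_null this (measure_iUnion_null hpiece)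

end Pool.Agent.W505.LVF.Null
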