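import Pool.Agent.W674.LVF.Stm

set_option autoImplicit false

open MeasureTheory Set Filter Topology Asymptotics
open scoped ENNReal NNReal ContDiff
open Pool.Agent.W674.LVR Pool.Agent.W674.LVF

namespace Pool.Agent.W505.LVF.Vol

theorem seminorm_le {k : ℕ} (p : Seminorm ℝ (Rn k)) :
    ∃ C : ℝ, 0 ≤ C ∧ ∀ w, p w ≤ C * ‖w‖ := by
  classical
  refine ⟨∑ i, p (Pi.single i 1), Finset.sum_nonneg fun i _ => apply_nonneg p _, fun w => ?_⟩
  have h1 : w = ∑ i, w i • (Pi.single i 1 : Rn k) := by
    ext j
    simp [Finset.sum_apply, Pi.single_apply]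
  have h2 : p w ≤ ∑ i, p (w i • (Pi.single i 1 : Rn k)) := by
    conv_lhs => rw [h1]
    exact Finset.le_sum_of_subadditive p (map_zero p).le (map_add_le_add p) _ _
  refine h2.trans ?_
  rw [Finset.sum_mul]
  apply Finset.sum_le_sum
  intro i _
  rw [map_smul_eq_mul, mul_comm]
  exact mul_le_mul_of_nonneg_left (norm_le_pi_norm w i) (apply_nonneg p _)

theorem seminorm_cont {k : ℕ} (p : Seminorm ℝ (Rn k)) : Continuous p := by
  obtain ⟨C, hC0, hC⟩ := seminorm_le p
  have : LipschitzWith (Real.toNNReal C) p := by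
    apply LipschitzWith.of_dist_le_mul
    intro x y
    rw [Real.dist_eq, Real.coe_toNNReal _ hC0, dist_eq_norm]
    refine (abs_sub_map_le_sub p x y).trans (hC _)
  exact this.continuous

theorem main : S_vol := by
  intro m K p hK hconv hint
  obtain ⟨C, hC0, hC⟩ := seminorm_le p
  obtain ⟨D, hD⟩ := hK.isBounded.exists_norm_le
  set R : ℝ := C * (2 * |D|) + 1 with hR
  have hR1 : 1 ≤ R := by
    have : 0 ≤ C * (2 * |D|) := by positivity
    linarith
  have hR0 : 0 < R := by linarith
  have hpR : ∀ y ∈ K, ∀ z ∈ K, p (z - y) ≤ R := by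
    intro y hy z hz
    refine (hC _).trans ?_
    have h1 : ‖z - y‖ ≤ 2 * |D| := by
      refine (norm_sub_le _ _).trans ?_
      have := hD y hy
      have := hD z hz
      have := le_abs_self D
      linarith
    have := mul_le_mul_of_nonneg_left h1 hC0
    linarith
  have hvol0 : 0 < volume K := by
    refine lt_of_lt_of_le (isOpen_interior.measure_pos volume hint) (measure_mono interior_subset)
  have hvolT : volume K < ⊤ := hK.measure_lt_top
  have hv : 0 < (volume K).toReal := ENNReal.toReal_pos hvol0.ne' hvolT.ne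
  refine ⟨(volume K).toReal / R ^ m, by positivity, ?_⟩
  intro y hy r hr0 hr1
  have hrR0 : 0 < r / R := by positivity
  have hrR1 : r / R ≤ 1 := by
    rw [div_le_one hR0]
    linarith
  have hsub : AffineMap.homothety y (r / R) '' K ⊆ K ∩ {z | p (z - y) ≤ r} := by
    rintro _ ⟨z, hz, rfl⟩
    constructor
    · rw [AffineMap.homothety_apply]
      simp only [vsub_eq_sub, vadd_eq_add]
      have := hconv hy hz (show 0 ≤ 1 - r / R by linarith) hrR0.le (by ring)
      convert this using 1
      rw [smul_sub, sub_smul, one_smul]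
      abel
    · rw [AffineMap.homothety_apply]
      simp only [vsub_eq_sub, vadd_eq_add, mem_ofPred_eq, add_sub_cancel_right]
      rw [map_smul_eq_mul, Real.norm_eq_abs, abs_of_pos hrR0]
      calc r / R * p (z - y) ≤ r / R * R := mul_le_mul_of_nonneg_left (hpR y hy z hz) hrR0.le
        _ = r := by field_simp
  refine le_trans (le_of_eq ?_) (measure_mono hsub)
  rw [Measure.addHaar_image_homothety, Module.finrank_fin_fun,
    abs_of_pos (pow_pos hrR0 m), ← ENNReal.ofReal_toReal hvolT.ne,
    ← ENNReal.ofReal_mul (pow_pos hrR0 m).le, ENNReal.ofReal_toReal hvolT.ne]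
  congr 1
  rw [div_pow]
  ring

end Pool.Agent.W505.LVF.Vol
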